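import Pool.Agent.X278.GE.Main

/-!
# MP_611bc7_al, Q1: disproof

Over `k = ℚ(√2)` there are two commutative associative algebras which are automorphically
equivalent but not geometrically equivalent.
-/

set_option autoImplicit false

namespace Pool.Agent.Results.MP_611bc7_al.AutNotGeom

open Pool.Agent.X278.GE

/-- There are a field `k` of characteristic `0` and two commutative associative `k`-algebras which
are automorphically equivalent but not geometrically equivalent. -/
theorem result : ∃ (k : Type) (_ : Field k) (_ : CharZero k) (H₁ H₂ : CAlg k),
    AutEquiv H₁ H₂ ∧ ¬ GeomEquiv H₁ H₂ :=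
  Pool.Agent.X278.GE.main

end Pool.Agent.Results.MP_611bc7_al.AutNotGeom
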